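import Pool.Agent.H.MP_d36490_an.B

set_option autoImplicit false

namespace Pool.Agent.Results.MP_d36490_an.Yes

open Finset

/-- the Pochhammer symbol `(w)_k` -/
noncomputable def poch (w : ℂ) (k : ℕ) : ℂ := ∏ i ∈ range k, (w + i)

/-- the coefficient `A_j` of `z^j` in `P_n` -/
noncomputable def A {p q : ℕ} (l : ℂ) (a : Fin p → ℂ) (b : Fin q → ℂ) (n j : ℕ) : ℂ :=
  poch (-n) j * poch (n + l) j * (∏ k, poch (a k) j) / (∏ k, poch (b k) j) / j.factorial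

theorem result {p q : ℕ} (hpq : q ≤ p) (l : ℂ) (a : Fin p → ℂ) (b : Fin q → ℂ)
    (ha : ∀ k (i : ℕ), a k ≠ -i) (hb : ∀ k (i : ℕ), b k ≠ -i) :
    ∃ M : ℝ, ∀ n : ℕ, 1 ≤ n → A l a b n n ≠ 0 →
      ∀ z : ℂ, ∑ j ∈ range (n + 1), A l a b n j * z ^ j = 0 →
        ‖z‖ ≤ M * (n : ℝ) ^ ((q : ℤ) - p - 1) :=
  Pool.Agent.H.MP_d36490_an.main hpq l a b ha hb

end Pool.Agent.Results.MP_d36490_an.Yes
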